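import Pool.Agent.H76.LUD.Targets

/-!
# Row AVN of lud_modules
-/

set_option autoImplicit false

namespace Pool.Agent.H72.LUD

open Pool.Agent.H69 Pool.Agent.H81.TM Pool.Agent.H76.LUD
open Nat.Partrec.Code (evaln_sound evaln_complete evaln_mono)

theorem fm_dl (n s : ℕ) : fm (dl n) s = if n ≤ s then some n else none := by
  unfold fm dl
  split_ifs with h
  · rw [List.find?_range_eq_some]
    refine ⟨by simp, by simp; omega, fun j hj => ?_⟩
    simp; omega
  · rw [List.find?_range_eq_none]
    intro j hj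
    simp; omega

theorem pf_AVN : T_AVN := by
  intro x n
  constructor
  · rintro ⟨s, hs'⟩
    unfold av at hs'
    rw [fm_dl] at hs'
    by_cases h : n ≤ s
    · rw [if_pos h] at hs'
      simp only [hs, List.any_eq_true, List.mem_range] at hs'
      obtain ⟨t, -, ht⟩ := hs'
      obtain ⟨v, hv⟩ := Option.isSome_iff_exists.1 ht
      have h1 := evaln_sound (Option.mem_def.2 hv)
      exact ⟨t, Part.dom_iff_mem.2 ⟨v, h1⟩⟩
    · rw [if_neg h] at hs'
      simp at hs'
  · rintro ⟨t, ht⟩
    obtain ⟨v, hv⟩ := Part.dom_iff_mem.1 ht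
    obtain ⟨k, hk⟩ := evaln_complete.1 hv
    refine ⟨max (max n t) k, ?_⟩
    unfold av
    rw [fm_dl, if_pos (by omega)]
    simp only [hs, List.any_eq_true, List.mem_range]
    refine ⟨t, by omega, ?_⟩
    have h1 := evaln_mono (le_max_right (max n t) k) hk
    rw [Option.mem_def] at h1
    rw [h1]
    rfl

end Pool.Agent.H72.LUD
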