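import Pool.Agent.H76.LUD.Targets

/-!
# Row DI0 of lud_modules
-/

set_option autoImplicit false

namespace Pool.Agent.H72.LUD

open Pool.Agent.H69 Pool.Agent.H81.TM Pool.Agent.H76.LUD

theorem pf_DI0 (hL : T_LIP) (hM : T_MEA) (hS : T_STG) (hF : T_FUS) (hT : T_TEQ)
    (hC : T_CST) : T_DI0 := by
  intro f hdet hinv
  by_cases h : ∀ (k : ℕ) (E : (ℕ → Bool) → (ℕ → Bool)) (s : Bool), Lip E →
      (∃ a b, Dec E a b) → ∃ τ, ∀ w, aI τ w ∉ W f k E s
  · left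
    obtain ⟨y, hy, hyd, hyc⟩ := hF f (hS f h)
    obtain ⟨c, hc⟩ := hT y hy hyd
    exact ⟨c, hC f hinv y (hL.1 y hy) hyc c hc⟩
  · right
    push Not at h
    obtain ⟨k, E, s, hE, ⟨a, b, hd⟩, hτ⟩ := h
    rcases hdet (W f k E s) (hM f k E s (hL.1 E hE)) with ⟨σ, hσ⟩ | ⟨τ, hτ'⟩
    · refine ⟨k, s, fun p => E (aII σ p), a + b * 0, b * 2,
        hL.2.2.1 E (aII σ) hE (hL.2.2.2.2.2.2 σ).1,
        hL.2.2.2.1 E (aII σ) a b 0 2 hd (hL.2.2.2.2.2.2 σ).2, fun p => ?_⟩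
      have h1 := hσ p
      simp only [W, Set.mem_setOf_eq] at h1
      have h2 : ∀ n, join p (rII σ p) (4 * n) = p (2 * n) := by
        intro n
        rw [show 4 * n = 2 * (2 * n) by ring]
        exact join_even _ _ _
      simp only [h2] at h1
      exact h1
    · obtain ⟨w, hw⟩ := hτ τ
      exact absurd hw (hτ' w)

end Pool.Agent.H72.LUD
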