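import Pool.Agent.H76.LUD.Targets

/-!
# Row DIC of lud_modules
-/

set_option autoImplicit false

namespace Pool.Agent.H72.LUD

open Pool.Agent.H69 Pool.Agent.H81.TM Pool.Agent.H76.LUD

theorem leM_tr {x y z : ℕ → Bool} (h : LeM x y) (h' : LeM y z) : LeM x z := by
  obtain ⟨ρ, hρ, h1⟩ := h
  obtain ⟨ρ', hρ', h2⟩ := h'
  exact ⟨fun n => ρ' (ρ n), hρ'.comp hρ, fun n => by rw [h1 n, h2 (ρ n)]⟩

theorem eqM_tr {x y z : ℕ → Bool} (h : EqM x y) (h' : EqM y z) : EqM x z :=
  ⟨leM_tr h.1 h'.1, leM_tr h'.2 h.2⟩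

theorem eqM_sy {x y : ℕ → Bool} (h : EqM x y) : EqM y x := ⟨h.2, h.1⟩

theorem leT_jr (x c : ℕ → Bool) : LeT c (join x c) := leT_iff.2 (rc_right (rc_self _))

theorem leT_jl (x c : ℕ → Bool) : LeT x (join x c) := leT_iff.2 (rc_left (rc_self _))

theorem leT_jj {x y : ℕ → Bool} (c : ℕ → Bool) (h : LeT x y) : LeT (join x c) (join y c) :=
  leT_iff.2 (rc_join (rc_of_leT h (rc_left (rc_self _))) (rc_right (rc_self _)))

theorem leT_jle {x c : ℕ → Bool} (h : LeT c x) : LeT (join x c) x :=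
  leT_iff.2 (rc_join (rc_self _) (leT_iff.1 h))

theorem pf_DIC (hD : T_DI0) : T_DIC := by
  intro c0 f hdet hinv
  have hG : Gam (fun x => f (join x c0)) ≤ Gam f := by
    refine MeasurableSpace.generateFrom_le ?_
    rintro A (hA | ⟨E, k, hE, rfl⟩)
    · exact MeasurableSpace.measurableSet_generateFrom (Or.inl hA)
    · exact MeasurableSpace.measurableSet_generateFrom
        (Or.inr ⟨fun x => join (E x) c0, k,
          continuous_join.comp (hE.prodMk continuous_const), rfl⟩)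
  have hdet0 : ∀ A, @MeasurableSet (ℕ → Bool) (Gam (fun x => f (join x c0))) A →
      Determined A := fun A hA => hdet A (hG A hA)
  have hinv0 : ∀ x y, EqT x y → EqM (f (join x c0)) (f (join y c0)) := by
    intro x y hxy
    exact hinv _ _ (leT_jr x c0) (leT_jr y c0) ⟨leT_jj c0 hxy.1, leT_jj c0 hxy.2⟩
  rcases hD (fun x => f (join x c0)) hdet0 hinv0 with ⟨c1, hc1⟩ | ⟨k, s, Z0, a, b, hZ, hd, hs⟩
  · left
    refine ⟨join c1 c0, ?_⟩
    have key : ∀ x, LeT (join c1 c0) x → LeT c1 x ∧ EqM (f x) (f (join x c0)) := by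
      intro x hx
      have h0 : LeT c0 x := leT_trans (leT_jr c1 c0) hx
      refine ⟨leT_trans (leT_jl c1 c0) hx, ?_⟩
      exact hinv _ _ h0 (leT_jr x c0) ⟨leT_jl x c0, leT_jle h0⟩
    intro x y hx hy
    obtain ⟨hx1, hx2⟩ := key x hx
    obtain ⟨hy1, hy2⟩ := key y hy
    exact eqM_tr hx2 (eqM_tr (hc1 x y hx1 hy1) (eqM_sy hy2))
  · right
    refine ⟨k, s, fun p => join (Z0 p) c0, 2 * a, 2 * b, ?_, ?_, hs⟩
    · intro v v' n h
      change join (Z0 v) c0 n = join (Z0 v') c0 n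
      unfold join
      by_cases hn : n % 2 = 0
      · rw [if_pos hn, if_pos hn]
        exact hZ v v' (n / 2) (fun i hi => h i (by omega))
      · rw [if_neg hn, if_neg hn]
    · intro v n
      change v n = join (Z0 v) c0 (2 * a + 2 * b * n)
      rw [show 2 * a + 2 * b * n = 2 * (a + b * n) by ring, join_even]
      exact hd v n

end Pool.Agent.H72.LUD
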