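import Pool.Agent.H76.LUD.Targets

/-!
# Row PSB of lud_modules
-/

set_option autoImplicit false

namespace Pool.Agent.H72.LUD

open Pool.Agent.H69 Pool.Agent.H81.TM Pool.Agent.H76.LUD

theorem pf_PSB : T_PSB := by
  intro Z a b hd
  refine ⟨fun l n => l[a + b * (2 * n + 1)]?, ?_, ?_⟩
  · have h1 : Primrec (fun n : ℕ => a + b * (2 * n + 1)) :=
      Primrec.nat_add.comp (Primrec.const a)
        (Primrec.nat_mul.comp (Primrec.const b)
          (Primrec.succ.comp (Primrec.nat_mul.comp (Primrec.const 2) Primrec.id)))
    exact Computable.list_getElem?.comp Computable.fst (h1.to_comp.comp Computable.snd)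
  · intro A z n
    have h1 : z n = Z (join A z) (a + b * (2 * n + 1)) := by
      rw [← hd (join A z) (2 * n + 1), join_odd]
    refine ⟨a + b * (2 * n + 1) + 1, ?_, fun s hs => ?_⟩
    · rw [h1]
      exact pre_getElem? _ (Nat.lt_succ_self _)
    · refine List.getElem?_eq_none ?_
      rw [pre_length]
      omega

end Pool.Agent.H72.LUD
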