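import Pool.Agent.H76.LUD.Targets

/-!
# Row STG of lud_modules
-/

set_option autoImplicit false

namespace Pool.Agent.H72.LUD

open Pool.Agent.H69 Pool.Agent.H81.TM Pool.Agent.H76.LUD

theorem pf_STG (hL : T_LIP) : T_STG := by
  intro f hst k E hE hd
  obtain ⟨hcont, -, hcomp, hdec, -, hI, -⟩ := hL
  obtain ⟨τ, hτ⟩ := hst k E true hE hd
  obtain ⟨a, b, hab⟩ := hd
  have hE' : Lip (fun w => E (aI τ w)) := hcomp E (aI τ) hE (hI τ).1
  have hd' : Dec (fun w => E (aI τ w)) (a + b * 1) (b * 2) :=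
    hdec E (aI τ) a b 1 2 hab (hI τ).2
  obtain ⟨τ', hτ'⟩ := hst k (fun w => E (aI τ w)) false hE' ⟨_, _, hd'⟩
  have hG : Lip (fun w => aI τ (aI τ' w)) := hcomp (aI τ) (aI τ') (hI τ).1 (hI τ').1
  refine ⟨fun w => aI τ (aI τ' w), hG,
    hdec (aI τ) (aI τ') 1 2 1 2 (hI τ).2 (hI τ').2, ?_⟩
  have h1 : ∀ w, f (E (aI τ (aI τ' w))) k = true ↔ ∃ n, aI τ' w (4 * n) = true := by
    intro w
    have h := hτ' w
    simp only [W, Set.mem_setOf_eq] at h
    cases hb : f (E (aI τ (aI τ' w))) k with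
    | true => simpa [hb] using h
    | false => simpa [hb] using h
  have h2 : ∀ w, f (E (aI τ (aI τ' w))) k = false ↔ ∃ n, aI τ (aI τ' w) (4 * n) = true := by
    intro w
    have h := hτ (aI τ' w)
    simp only [W, Set.mem_setOf_eq] at h
    cases hb : f (E (aI τ (aI τ' w))) k with
    | true => simpa [hb] using h
    | false => simpa [hb] using h
  have hopen : ∀ H : (ℕ → Bool) → (ℕ → Bool), Continuous H →
      IsOpen {w | ∃ n, H w (4 * n) = true} := by
    intro H hH
    rw [Set.setOf_exists]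
    refine isOpen_iUnion fun n => ?_
    have hc : Continuous (fun w => H w (4 * n)) := (continuous_apply _).comp hH
    exact (isOpen_discrete {true}).preimage hc
  rw [continuous_bool_rng true]
  constructor
  · rw [← isOpen_compl_iff]
    have he : ((fun v => f (E (aI τ (aI τ' v))) k) ⁻¹' {true})ᶜ =
        {w | ∃ n, aI τ (aI τ' w) (4 * n) = true} := by
      ext w
      rw [Set.mem_setOf_eq, ← h2 w]
      simp
    rw [he]
    exact hopen _ (hcont _ hG)
  · have he : ((fun v => f (E (aI τ (aI τ' v))) k) ⁻¹' {true}) =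
        {w | ∃ n, aI τ' w (4 * n) = true} := by
      ext w
      rw [Set.mem_setOf_eq, ← h1 w]
      simp
    rw [he]
    exact hopen _ (hcont _ (hI τ').1)

end Pool.Agent.H72.LUD
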